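import Pool.Agent.W728.PK.Stms

set_option autoImplicit false
open Filter Topology Set Metric

namespace Pool.Agent.W427.PK

open Pool.Agent.W728.PK

theorem t_A2 : Pool.Agent.W728.PK.A2_stmt := by
  intro α hα E hE hne f C hC
  obtain ⟨C1, hC1⟩ : ∃ C1, C1 = max C 1 := ⟨_, rfl⟩
  have hC10 : 1 ≤ C1 := by rw [hC1]; exact le_max_right _ _
  have hCC1 : C ≤ C1 := by rw [hC1]; exact le_max_left _ _
  have hC0 : 0 ≤ C := by
    obtain ⟨ζ, hζ⟩ := hne
    have h1 := hC ζ hζ 0 0 (mem_ball_self one_pos)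
    simp at h1
    exact (norm_nonneg _).trans h1
  have he : (0 : ℝ) < Real.exp 1 := Real.exp_pos 1
  have heC : 0 < Real.exp 1 * C1 := by positivity
  refine ⟨C1 * Real.exp 1, ?_, (Real.exp 1 * C1) ^ (-α), Real.rpow_pos_of_pos heC _, ?_⟩
  · have h1 : 1 ≤ Real.exp 1 := Real.one_le_exp (by norm_num)
    nlinarith
  intro z hz
  have hz1 : ‖z‖ < 1 := by simpa using hz
  obtain ⟨δ, hδ⟩ : ∃ δ, δ = infDist z E := ⟨_, rfl⟩
  have hδ0 : 0 < δ := by
    have h1 : 1 - ‖z‖ ≤ infDist z E := by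
      rw [le_infDist hne]
      intro ζ hζ
      have h2 : ‖ζ‖ = 1 := by simpa using hE hζ
      rw [dist_eq_norm]
      have h3 : ‖ζ‖ ≤ ‖z - ζ‖ + ‖z‖ := by
        have := norm_sub_le z (z - ζ)
        rw [sub_sub_cancel] at this
        linarith
      linarith
    rw [hδ]
    linarith
  rw [← hδ]
  -- the bound with the distance
  have hbd : ∀ n : ℕ, ‖f z‖ ≤ C1 ^ (n + 1) * ((n.factorial : ℝ)) ^ (1 / α) * δ ^ n := by
    intro n
    have h1 : ∀ t, δ < t → ‖f z‖ ≤ C1 ^ (n + 1) * ((n.factorial : ℝ)) ^ (1 / α) * t ^ n := by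
      intro t ht
      rw [hδ, infDist_lt_iff hne] at ht
      obtain ⟨ζ, hζ, hd⟩ := ht
      refine (hC ζ hζ n z hz).trans ?_
      have h2 : ‖z - ζ‖ ≤ t := by
        rw [← dist_eq_norm]
        exact hd.le
      have h3 : (0 : ℝ) ≤ ((n.factorial : ℝ)) ^ (1 / α) := by positivity
      gcongr
    have h2 : Tendsto (fun t : ℝ => C1 ^ (n + 1) * ((n.factorial : ℝ)) ^ (1 / α) * t ^ n)
        (𝓝[>] δ) (𝓝 (C1 ^ (n + 1) * ((n.factorial : ℝ)) ^ (1 / α) * δ ^ n)) := by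
      have h3 : Continuous (fun t : ℝ => C1 ^ (n + 1) * ((n.factorial : ℝ)) ^ (1 / α) * t ^ n) := by
        fun_prop
      exact (h3.tendsto δ).mono_left nhdsWithin_le_nhds
    refine ge_of_tendsto h2 ?_
    filter_upwards [self_mem_nhdsWithin] with t ht
    exact h1 t ht
  -- choose `n`
  have hb0 : 0 < Real.exp 1 * C1 * δ := by positivity
  obtain ⟨x, hx⟩ : ∃ x, x = (Real.exp 1 * C1 * δ) ^ (-α) := ⟨_, rfl⟩
  have hx0 : 0 < x := by rw [hx]; exact Real.rpow_pos_of_pos hb0 _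
  have hn1 := Nat.floor_le hx0.le
  have hn2 := Nat.lt_floor_add_one x
  obtain ⟨n, hn⟩ : ∃ n, n = ⌊x⌋₊ := ⟨_, rfl⟩
  rw [← hn] at hn1 hn2
  have hnr : (n : ℝ) ^ (1 / α) ≤ (Real.exp 1 * C1 * δ)⁻¹ := by
    calc (n : ℝ) ^ (1 / α) ≤ x ^ (1 / α) :=
          Real.rpow_le_rpow (Nat.cast_nonneg _) hn1 (by positivity)
      _ = (Real.exp 1 * C1 * δ)⁻¹ := by
          rw [hx, ← Real.rpow_mul hb0.le]
          have : -α * (1 / α) = -1 := by field_simp
          rw [this, Real.rpow_neg_one]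
  have hfac : ((n.factorial : ℝ)) ^ (1 / α) ≤ ((n : ℝ) ^ (1 / α)) ^ n := by
    have h1 : (n.factorial : ℝ) ≤ (n : ℝ) ^ n := by exact_mod_cast Nat.factorial_le_pow n
    calc ((n.factorial : ℝ)) ^ (1 / α) ≤ ((n : ℝ) ^ n) ^ (1 / α) :=
          Real.rpow_le_rpow (Nat.cast_nonneg _) h1 (by positivity)
      _ = ((n : ℝ) ^ (1 / α)) ^ n := by
          rw [← Real.rpow_natCast, ← Real.rpow_natCast, ← Real.rpow_mul (Nat.cast_nonneg _),
            ← Real.rpow_mul (Nat.cast_nonneg _), mul_comm]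
  have hnr0 : (0 : ℝ) ≤ (n : ℝ) ^ (1 / α) := Real.rpow_nonneg (Nat.cast_nonneg _) _
  have hq : C1 * δ * (n : ℝ) ^ (1 / α) ≤ Real.exp (-1) := by
    calc C1 * δ * (n : ℝ) ^ (1 / α) ≤ C1 * δ * (Real.exp 1 * C1 * δ)⁻¹ := by gcongr
      _ = Real.exp (-1) := by
          rw [Real.exp_neg]
          field_simp
  calc ‖f z‖ ≤ C1 ^ (n + 1) * ((n.factorial : ℝ)) ^ (1 / α) * δ ^ n := hbd n
    _ ≤ C1 ^ (n + 1) * ((n : ℝ) ^ (1 / α)) ^ n * δ ^ n := by gcongr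
    _ = C1 * (C1 * δ * (n : ℝ) ^ (1 / α)) ^ n := by ring
    _ ≤ C1 * (Real.exp (-1)) ^ n := by gcongr
    _ = C1 * Real.exp (-n) := by
        rw [← Real.exp_nat_mul]
        congr 2
        ring
    _ ≤ C1 * Real.exp (1 - x) := by
        gcongr
        linarith
    _ = C1 * Real.exp 1 * Real.exp (-((Real.exp 1 * C1) ^ (-α) * δ ^ (-α))) := by
        rw [mul_assoc, ← Real.exp_add, ← Real.mul_rpow heC.le hδ0.le, ← hx]
        congr 2

end Pool.Agent.W427.PK
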